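import Pool.Agent.H99.AG.Fib

open Set Topology Filter AltGenus AltGenus.AG

namespace Pool.Agent.Results.MP_55d555_gt.SeifertComponents

theorem exists_cables {r : ℕ} (J : Link r) : ∃ T : Tubes J, ∀ P : Fin r → Finset (ℝ × ℝ),
    ∃ K : Link (∑ i, (P i).card), K.carrier = T.parallels P := by
  obtain ⟨T, hT⟩ := exists_good_tubes J
  refine ⟨T, ?_⟩
  intro P
  set idz : (Σ i : Fin r, Fin (P i).card) → Fin r × (ℝ × ℝ) :=
    fun z => (z.1, (((P z.1).equivFin.symm z.2 : P z.1) : ℝ × ℝ)) with hidz
  have hinj : Function.Injective idz := by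
    rintro ⟨i, j⟩ ⟨i', j'⟩ h
    have h1 : i = i' := congrArg Prod.fst h
    subst h1
    have h2 : (((P i).equivFin.symm j : P i) : ℝ × ℝ) = ((P i).equivFin.symm j' : P i) :=
      congrArg Prod.snd h
    have h3 : (P i).equivFin.symm j = (P i).equivFin.symm j' := Subtype.ext h2
    rw [(P i).equivFin.symm.injective h3]
  obtain ⟨K, hK⟩ := hT (∑ i, (P i).card) (fun a => idz (finSigmaFinEquiv.symm a))
    (hinj.comp finSigmaFinEquiv.symm.injective)
  refine ⟨K, ?_⟩
  ext v
  simp only [Link.carrier, mem_iUnion, mem_range, Tubes.parallels, mem_ofPred_eq]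
  constructor
  · rintro ⟨a, t, rfl⟩
    refine ⟨_, _, ?_, _, hK a t⟩
    exact ((P _).equivFin.symm (finSigmaFinEquiv.symm a).2).2
  · rintro ⟨i, p, hp, θ, rfl⟩
    obtain ⟨t, rfl⟩ := circ_surj θ
    refine ⟨finSigmaFinEquiv ⟨i, (P i).equivFin ⟨p, hp⟩⟩, t, ?_⟩
    rw [hK]
    simp only [hidz, Equiv.symm_apply_apply]

/-- **Disconnected Seifert surfaces and the alternating genus.**

1. If a smooth link `K` is the boundary of `n` pairwise disjoint compact surfaces in the 3-sphere
(each with nonempty boundary and a connected product neighbourhood), then `g_alt(K) ≥ n - 1`.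

2. For every smooth link `J`, with `r` components: a smooth link which consists of `2 k i` parallel
copies of the `i`-th component of `J`, `i < r`, with respect to any framing `T` of `J`, has
alternating genus at least `k 0 + ... + k (r-1) - 1`; and for some `T` all families of
parallels are smooth links.

3. So the alternating genus is unbounded on links. -/
theorem result :
    (∀ (n m : ℕ) (S : SurfaceSystem n) (K : Link m), K.carrier = S.boundary →
      (n : ℕ∞) ≤ gAlt K + 1) ∧
    (∀ (r : ℕ) (J : Link r),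
      (∀ (T : Tubes J) (P : Fin r → Finset (ℝ × ℝ)) (k : Fin r → ℕ),
        (∀ i, (P i).card = 2 * k i) → ∀ (m : ℕ) (K : Link m), K.carrier = T.parallels P →
          ((∑ i, k i : ℕ) : ℕ∞) ≤ gAlt K + 1) ∧
      ∃ T : Tubes J, ∀ P : Fin r → Finset (ℝ × ℝ),
        ∃ K : Link (∑ i, (P i).card), K.carrier = T.parallels P) ∧
    (∀ N : ℕ, ∃ (m : ℕ) (L : Link m), (N : ℕ∞) ≤ gAlt L) := by
  refine ⟨fun n m S K hK => surfaces S K hK, fun r J =>
    ⟨fun T P k hP m K hK => tubes_bound T k P hP K hK, exists_cables J⟩, ?_⟩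
  intro N
  obtain ⟨T, p, L, _, _, _, h⟩ := knot_parallels N someKnot
  exact ⟨2 * N + 2, L, h⟩

end Pool.Agent.Results.MP_55d555_gt.SeifertComponents
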